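import Mathlib
import Pool.Agent.X99.CK.Lp
import Pool.Agent.X99.CK.Mq
import Pool.Agent.X99.RL.Deg

/-!
# MP_81dc49_nt: the average rank and all the moments of the rank over real multiquadratic fields of the
twists of `X_0(49)` by sums of two squares
-/

set_option autoImplicit false
set_option linter.unusedSectionVars false
set_option linter.style.haveILetI false

open Filter

namespace Pool.Agent.Results.MP_81dc49_nt.AverageRankMultiquadratic

/-- the odd squarefree sums of two squares -/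
def 𝒟 : Set ℕ := {D : ℕ | Squarefree D ∧ Odd D ∧ ∃ x y : ℕ, D = x ^ 2 + y ^ 2}

/-- the twist `y² = x³ - 35 D² x - 98 D³` of `X_0(49)` over the field `F` -/
def E (F : Type) [Field F] (D : ℕ) : WeierstrassCurve F :=
  { a₁ := 0, a₂ := 0, a₃ := 0, a₄ := ((-35 * (D : ℤ) ^ 2 : ℤ) : F), a₆ := ((-98 * (D : ℤ) ^ 3 : ℤ) : F) }

open Classical in
/-- the rank of `E_D(F)` -/
noncomputable def rank (F : Type) [Field F] (D : ℕ) : ℕ := Module.finrank ℤ (E F D).toAffine.Point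

/-- `F = ℚ(√d₁, …, √dₙ)` with `dᵢ ∈ 𝒟` independent modulo squares -/
def IsMq (F : Type) [Field F] [NumberField F] {n : ℕ} (d : Fin n → ℕ) : Prop :=
  (∀ i, d i ∈ 𝒟) ∧ (∀ T : Finset (Fin n), T.Nonempty → ¬ IsSquare (∏ i ∈ T, d i)) ∧
    ∃ x : Fin n → F, (∀ i, x i ^ 2 = (d i : F)) ∧
      IntermediateField.adjoin ℚ (Set.range x) = ⊤

/-- the average of `f` over the `D ≤ X` in `𝒟` -/
noncomputable def average (f : ℕ → ℝ) (X : ℕ) : ℝ :=
  (∑ᶠ D ∈ {D : ℕ | D ∈ 𝒟 ∧ D ≤ X}, f D) / ({D : ℕ | D ∈ 𝒟 ∧ D ≤ X}.ncard : ℝ)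

/-- the probabilities `c / ∏_{i ≤ k} (2^i - 1)`, `c = ∏_{i ≥ 0} (1 - 2^(-2i-1))` -/
noncomputable def prob (k : ℕ) : ℝ :=
  (∏' i : ℕ, (1 - (1 / 2 : ℝ) ^ (2 * i + 1))) / ∏ i ∈ Finset.Icc 1 k, ((2 : ℝ) ^ i - 1)

/-- the mean `μ` of the law `prob` -/
noncomputable def mean : ℝ := ∑' k : ℕ, (k : ℝ) * prob k

/-- the expectation of `g (2 (k_1 + ... + k_N))` for independent `k_i` with the law `prob` -/
noncomputable def expect (N : ℕ) (g : ℕ → ℝ) : ℝ :=
  ∑' r : Fin N → ℕ, g (2 * ∑ i, r i) * ∏ i, prob (r i)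

/-- `g` is of polynomial growth -/
def Poly (g : ℕ → ℝ) : Prop := ∃ (C : ℝ) (j : ℕ), ∀ r : ℕ, |g r| ≤ C * (1 + (r : ℝ)) ^ j

open Pool.Agent.X99.CK Pool.Agent.X99.C49

theorem cf_prod (k : ℕ) : Pool.Agent.Y697.PQ.cf k = 1 / ∏ i ∈ Finset.Icc 1 k, ((2 : ℝ) ^ i - 1) := by
  induction k with
  | zero => simp [Pool.Agent.Y697.PQ.cf]
  | succ k ih =>
    rw [Finset.prod_Icc_succ_top (by omega), Pool.Agent.Y697.PQ.cf, ih, div_div]

theorem prob_eq (k : ℕ) : prob k = pr k := by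
  unfold prob pr
  rw [cf_prod, Pool.Agent.Y697.CJ.gi_eq, mul_one_div]
  rfl

theorem mem_𝒟 {D : ℕ} : D ∈ 𝒟 ↔ Fam D := fam_two D

theorem mean_eq : mean = mu := by
  unfold mean mu
  exact tsum_congr fun k => by rw [prob_eq]

theorem average_eq (f : ℕ → ℝ) (X : ℕ) : average f X = av f X := by
  classical
  unfold average av
  have e0 : {D : ℕ | D ∈ 𝒟 ∧ D ≤ X} = (((Finset.Icc 1 X).filter fun D => Fam D : Finset ℕ) : Set ℕ) := by
    ext D
    rw [Finset.mem_coe, Finset.mem_filter, Finset.mem_Icc]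
    constructor
    · rintro ⟨h1, h2⟩
      exact ⟨⟨Nat.pos_of_ne_zero (mem_𝒟.1 h1).1.ne_zero, h2⟩, mem_𝒟.1 h1⟩
    · rintro ⟨⟨-, h2⟩, h1⟩
      exact ⟨mem_𝒟.2 h1, h2⟩
  rw [e0, finsum_mem_coe_finset, Set.ncard_coe_finset]

/-- the set of the twists -/
theorem twists {F : Type} [Field F] [NumberField F] {n : ℕ} {d : Fin n → ℕ} (h : IsMq F d) :
    Module.finrank ℚ F = 2 ^ n ∧ ∃ 𝓜 : Finset ℕ, (∀ m ∈ 𝓜, Fam m) ∧ 𝓜.card = 2 ^ n ∧
      ∀ D, Fam D → rank F D ≤ 2 * ∑ m ∈ 𝓜, kk (Pool.Agent.X99.GJ.star m D) := by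
  classical
  obtain ⟨hd, hind, x, hx, hgen⟩ := h
  have hF : ∀ i, Fam (d i) := fun i => mem_𝒟.1 (hd i)
  refine ⟨?_, ?_⟩
  · refine Pool.Agent.X99.RL.deg_of_ind n ℚ F (fun i => (d i : ℤ)) x (fun i => by
      rw [hx i]; push_cast; rfl) hgen fun T hT y hy => hind T hT ?_
    have h1 : IsSquare ((∏ i ∈ T, d i : ℕ) : ℚ) := ⟨y, by
      rw [← pow_two, hy]
      push_cast
      rfl⟩
    exact Rat.isSquare_natCast_iff.1 h1
  · choose m hm using fun T => sqf_prod hF T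
    have hinj : Function.Injective m := by
      intro T T' hTT
      by_contra hne
      obtain ⟨-, k, hk, h1⟩ := hm T
      obtain ⟨-, k', hk', h2⟩ := hm T'
      have h3 : (∏ i ∈ T, d i) * (∏ i ∈ T', d i) =
          (∏ i ∈ symmDiff T T', d i) * (∏ i ∈ T ∩ T', d i) ^ 2 := by
        have e1 : ∏ i ∈ T, d i = (∏ i ∈ T \ T', d i) * ∏ i ∈ T ∩ T', d i := by
          rw [mul_comm, ← Finset.prod_inter_mul_prod_sdiff T T' d]
        have e2 : ∏ i ∈ T', d i = (∏ i ∈ T' \ T, d i) * ∏ i ∈ T ∩ T', d i := by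
          rw [mul_comm, ← Finset.prod_inter_mul_prod_sdiff T' T d, Finset.inter_comm]
        have e3 : ∏ i ∈ symmDiff T T', d i = (∏ i ∈ T \ T', d i) * ∏ i ∈ T' \ T, d i := by
          rw [symmDiff_def, Finset.sup_eq_union, Finset.prod_union]
          exact disjoint_sdiff_sdiff
        rw [e3]
        nth_rewrite 1 [e1]
        nth_rewrite 1 [e2]
        ring
      refine hind (symmDiff T T') ?_ ?_
      · rw [Finset.nonempty_iff_ne_empty]
        intro h4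
        exact hne (symmDiff_eq_bot.1 h4)
      · have h4 : (∏ i ∈ T ∩ T', d i) ≠ 0 :=
          Finset.prod_ne_zero_iff.2 fun i _ => (hF i).1.ne_zero
        have h5 : (∏ i ∈ symmDiff T T', d i) * (∏ i ∈ T ∩ T', d i) ^ 2 = (m T * k * k') ^ 2 := by
          rw [← h3, h1, h2, hTT]
          ring
        have h6 : IsSquare (((∏ i ∈ symmDiff T T', d i : ℕ)) : ℚ) := by
          refine ⟨((m T * k * k' : ℕ) : ℚ) / ((∏ i ∈ T ∩ T', d i : ℕ) : ℚ), ?_⟩
          have h7 : ((∏ i ∈ T ∩ T', d i : ℕ) : ℚ) ≠ 0 := by exact_mod_cast h4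
          rw [div_mul_div_comm, eq_div_iff (mul_ne_zero h7 h7)]
          have h8 : (((∏ i ∈ symmDiff T T', d i) * (∏ i ∈ T ∩ T', d i) ^ 2 : ℕ) : ℚ) =
              (((m T * k * k') ^ 2 : ℕ) : ℚ) := by rw [h5]
          push_cast at h8 ⊢
          linear_combination h8
        exact Rat.isSquare_natCast_iff.1 h6
    refine ⟨Finset.univ.image m, fun a ha => ?_, ?_, fun D hD => ?_⟩
    · obtain ⟨T, -, rfl⟩ := Finset.mem_image.1 ha
      exact (hm T).1
    · rw [Finset.card_image_of_injective _ hinj, Finset.card_univ, Fintype.card_finset,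
        Fintype.card_fin]
    · rw [Finset.sum_image fun a _ b _ h => hinj h, Finset.mul_sum]
      exact rank_mq F x hF hx hgen hm hD

theorem poly_two {g : ℕ → ℝ} (hg : Poly g) :
    ∃ (C : ℝ) (j : ℕ), ∀ r : ℕ, |g (2 * r)| ≤ C * (1 + (r : ℝ)) ^ j := by
  obtain ⟨C, j, h⟩ := hg
  have hC : 0 ≤ C := by
    have h1 := (abs_nonneg _).trans (h 0)
    simp at h1
    exact h1
  refine ⟨C * 2 ^ j, j, fun r => (h _).trans ?_⟩
  rw [mul_assoc, ← mul_pow]
  refine mul_le_mul_of_nonneg_left ?_ hC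
  refine pow_le_pow_left₀ (by positivity) ?_ j
  have h0 : (0 : ℝ) ≤ (r : ℝ) := Nat.cast_nonneg _
  push_cast
  linarith

theorem expect_eq (N : ℕ) (g : ℕ → ℝ) :
    expect N g = ∑' r : Fin N → ℕ, g (2 * ∑ i, r i) * ∏ i, pr (r i) := by
  unfold expect
  refine tsum_congr fun r => ?_
  congr 1
  exact Finset.prod_congr rfl fun i _ => prob_eq _

theorem summ_expect (N : ℕ) {g : ℕ → ℝ} (hg : Poly g) :
    Summable fun r : Fin N → ℕ => g (2 * ∑ i, r i) * ∏ i, prob (r i) := by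
  obtain ⟨C, j, h⟩ := poly_two hg
  refine (summ_g (g := fun r : Fin N → ℕ => g (2 * ∑ i, r i)) (fun r => h _)).congr fun r => ?_
  congr 1
  exact Finset.prod_congr rfl fun i _ => (prob_eq _).symm

theorem avg {F : Type} [Field F] [NumberField F] {n : ℕ} {d : Fin n → ℕ} (hF : IsMq F d)
    {g : ℕ → ℝ} (hg : Poly g) (hmon : Monotone g) {ε : ℝ} (hε : 0 < ε) :
    ∀ᶠ X : ℕ in atTop, average (fun D => g (rank F D)) X ≤ expect (2 ^ n) g + ε := by
  obtain ⟨-, 𝓜, h2, h3, h4⟩ := twists hF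
  obtain ⟨C, j, h⟩ := poly_two hg
  have h5 := mom_sum h2 h3 (g := fun k => g (2 * k)) h
  rw [← expect_eq] at h5
  filter_upwards [h5.eventually (gt_mem_nhds (lt_add_of_pos_right _ hε))] with X hX
  rw [average_eq]
  exact (av_mono (fun D hD => hmon (h4 D hD)) X).trans hX.le

theorem avg_one {F : Type} [Field F] [NumberField F] {n : ℕ} {d : Fin n → ℕ} (hF : IsMq F d)
    {c : ℝ} (hc : 2 * mean < c) :
    ∀ᶠ X : ℕ in atTop, average (fun D => (rank F D : ℝ)) X < c * (Module.finrank ℚ F : ℝ) := by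
  obtain ⟨h1, 𝓜, h2, h3, h4⟩ := twists hF
  rw [h1, ← h3]
  have hN : (0 : ℝ) < 𝓜.card := by
    rw [h3]
    positivity
  have h5 := (mom_sum_one h2).const_mul 2
  rw [mean_eq] at hc
  filter_upwards [h5.eventually (gt_mem_nhds (show 2 * (𝓜.card * mu) < c * 𝓜.card by nlinarith))]
    with X hX
  rw [average_eq]
  refine lt_of_le_of_lt ?_ hX
  rw [← av_mul]
  refine av_mono (fun D hD => ?_) X
  exact_mod_cast h4 D hD

/-- **The average rank over multiquadratic fields.** Let `F = ℚ(√d₁, …, √dₙ)` with `dᵢ ∈ 𝒟` (odd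
squarefree sums of two squares) independent modulo squares, and `E_D : y² = x³ - 35 D² x - 98 D³`,
`D ∈ 𝒟`, ordered by `D` (which is the ordering by the height).
(1) `prob` is a probability distribution with finite moments, `μ = mean`, `2 μ < 1.53`.
(2) `[F : ℚ] = 2 ^ n`; the upper average of `rank E_D(F)` is at most `2 μ [F : ℚ]`, and it is less than
`1.53 [F : ℚ]` for all large `X`.
(3) For every nondecreasing `g` of polynomial growth the upper average of `g (rank E_D(F))` is at most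
`expect (2 ^ n) g`, the expectation of `g (2 (k_1 + … + k_{2 ^ n}))` for independent `k_i` with the law
`prob`; for example, this holds for all the powers of the rank, and for `g = 1_{[t, ∞)}`.
(4) As `[F : ℚ]` grows all the upper moments of `rank E_D(F) / [F : ℚ]` are at most those of the
constant `2 μ`, up to `ε`, uniformly in the field. -/
theorem result :
    ((∀ k, 0 < prob k) ∧ HasSum prob 1 ∧ (∀ j : ℕ, Summable fun k : ℕ => (k : ℝ) ^ j * prob k) ∧
      2 * mean < 1.53) ∧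
    (∀ (n : ℕ) (d : Fin n → ℕ) (F : Type) [Field F] [NumberField F], IsMq F d →
      Module.finrank ℚ F = 2 ^ n ∧
      (∀ ε : ℝ, 0 < ε → ∀ᶠ X : ℕ in atTop,
        average (fun D => (rank F D : ℝ)) X < (2 * mean + ε) * (Module.finrank ℚ F : ℝ)) ∧
      (∀ᶠ X : ℕ in atTop, average (fun D => (rank F D : ℝ)) X < 1.53 * (Module.finrank ℚ F : ℝ)) ∧
      ∀ g : ℕ → ℝ, Poly g → Monotone g →
        (Summable fun r : Fin (2 ^ n) → ℕ => g (2 * ∑ i, r i) * ∏ i, prob (r i)) ∧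
        ∀ ε : ℝ, 0 < ε → ∀ᶠ X : ℕ in atTop,
          average (fun D => g (rank F D)) X ≤ expect (2 ^ n) g + ε) ∧
    ∀ (j : ℕ) (ε : ℝ), 0 < ε → ∃ n₀ : ℕ, ∀ n : ℕ, n₀ ≤ n → ∀ (d : Fin n → ℕ) (F : Type) [Field F]
      [NumberField F], IsMq F d → ∀ᶠ X : ℕ in atTop,
        average (fun D => ((rank F D : ℝ) / (Module.finrank ℚ F : ℝ)) ^ j) X ≤
          (2 * mean) ^ j + ε := by
  have hpe : prob = pr := funext prob_eq
  have hb := (Pool.Agent.Y948.CQ.c2_main Pool.Agent.Y697.PQ.gi Pool.Agent.Y697.CJ.gi_eq).2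
  refine ⟨⟨fun k => ?_, ?_, fun j => ?_, ?_⟩, fun n d F _ _ hF => ⟨(twists hF).1, fun ε hε => ?_, ?_,
    fun g hg hmon => ⟨summ_expect _ hg, fun ε hε => avg hF hg hmon hε⟩⟩, fun j ε hε => ?_⟩
  · rw [hpe]
    exact mul_pos hb.1 (Pool.Agent.Y697.PQ.cf_pos k)
  · rw [hpe]
    exact hasSum_pr
  · rw [hpe]
    exact summ_mu j
  · rw [mean_eq]
    exact mu_lt
  · exact avg_one hF (by linarith)
  · exact avg_one hF (by rw [mean_eq]; exact mu_lt)
  · obtain ⟨N₀, hN⟩ := lp_law j (show 0 < ε / 2 ^ j by positivity)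
    refine ⟨N₀, fun n hn d F _ _ hF => ?_⟩
    obtain ⟨h1, 𝓜, h2, h3, h4⟩ := twists hF
    have h5 : N₀ ≤ 𝓜.card := by
      rw [h3]
      exact hn.trans Nat.lt_two_pow_self.le
    filter_upwards [hN 𝓜 h2 h5] with X hX
    rw [average_eq, mean_eq, h1, ← h3]
    have h6 : av (fun D => ((rank F D : ℝ) / ((𝓜.card : ℕ) : ℝ)) ^ j) X ≤
        av (fun D => 2 ^ j * (((∑ m ∈ 𝓜, kk (Pool.Agent.X99.GJ.star m D) : ℕ) : ℝ) /
          𝓜.card) ^ j) X := by
      refine av_mono (fun D hD => ?_) X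
      rw [← mul_pow]
      refine pow_le_pow_left₀ (by positivity) ?_ j
      rw [mul_div_assoc']
      refine div_le_div_of_nonneg_right ?_ (Nat.cast_nonneg _)
      exact_mod_cast h4 D hD
    rw [av_mul] at h6
    refine h6.trans ?_
    have h7 := mul_le_mul_of_nonneg_left hX (by positivity : (0 : ℝ) ≤ 2 ^ j)
    refine h7.trans (le_of_eq ?_)
    rw [mul_add, mul_div_cancel₀ _ (by positivity), mul_pow]

end Pool.Agent.Results.MP_81dc49_nt.AverageRankMultiquadratic
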