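import Mathlib
import Pool.Agent.X253.CF.TwE
import Pool.Agent.X253.CF.TwG
import Pool.Agent.X253.CF.Fg

/-!
# The average rank of the cubic twists `y² + D y = x³` over `ℚ(√-3, ∛l₁, …, ∛l_n)`

`K` is the field of third roots of unity, `E_D : y² + D y = x³`, and `D` runs through the cube-free
`D = 1` modulo `3` of `𝓞 K` whose norm is not `1` modulo `9`, ordered by the norm. `killed ω D` is the
kernel of the endomorphism `√-3 = 1 + 2 ω` on the `3^∞`-Selmer group of `E_D` over `K`, and
`dim ω D` is its dimension over the field with three elements, so the rank of `E_D(K)` is at most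
`2 dim ω D`. With
`prob r = ∏_{i ≥ 0} (1 - 3^{-(2 i + 1)}) / ((3 - 1) (9 - 1) ⋯ (3 ^ r - 1))` and
`moment m = ∑ r ^ m prob r`:

* for every `m` the mean of `(dim ω D) ^ m` over the `D` of norm at most `X` tends to `moment m`;
* for every `m` the mean of `(rank E_D(K)) ^ m` over the `D` of norm at most `X` is at most
  `2 ^ m moment m + ε` for large `X`;
* `moment 1 = 0.404...`, so the mean of the rank of `E_D(K)` over the `D` of norm at most `X` is less
  than `0.81` for large `X`;
* more generally, let `P` be a finite set of primes `l` of `𝓞 K` with `l = 1` modulo `3` and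
  `N(l) = 1` modulo `9`, and let `F = K(∛l : l ∈ P)`, a field of degree `3 ^ #P` over `K`: for large
  `X` the mean of `(rank E_D(F) / [F : K]) ^ m` over the `D` of the class of norm at most `X` which are
  not divisible by the elements of `P` is at most `2 ^ m moment m + ε`, and the mean of the rank of
  `E_D(F)` over these `D` is less than `0.81 [F : K]`.

The proof (project CF, `Pool/Agent/X253/CF`, files `AvA` to `AvF`): the law of the dimension for the
sets of primes containing a given set `T` is made uniform in `T` and in the dimension `r`, up to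
`r = log log X / 96`, with the error `X (log X) ^ (-1 / 48)`; this and the decay of the number of the
`D` with more than `10 log log X` primes bound the contribution of the large dimensions to the mean.
For the fields `F` the same is done for the `3 ^ #P` twists of `E_D` by the products of the `l` (files
`TwA` to `TwG`), and the rank over `F` is at most the sum of the ranks of these twists over `K` (`TwP`).
-/

set_option autoImplicit false

namespace Pool.Agent.Results.MP_81dc49_nt.CubicTwistsAverageRank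

open NumberField WeierstrassCurve
open Pool.Agent.TH841.SH.D (Pt act Gal Coch)
open Pool.Agent.TH841.NF.D (IsShaCoc shaCoc)
open scoped Classical

variable {K : Type} [Field K] [NumberField K]

/-- The curve `E_D : y² + D y = x³`. -/
def curve {K : Type} [Field K] (D : K) : WeierstrassCurve K := ⟨0, 0, D, 0, 0⟩

/-- The endomorphism `(x, y) ↦ (ω x, y)` of `E_D` for a third root of unity `ω`, on the points over
an extension `L`. -/
noncomputable def rotation {K : Type} [Field K] (D ω : K) (L : Type) [Field L] [Algebra K L] :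
    Pt (curve D) L → Pt (curve D) L
  | 0 => 0
  | .some x y _ =>
    if h : ((curve D).baseChange L).toAffine.Nonsingular (algebraMap K L ω * x) y then
      .some _ y h
    else 0

/-- The group of the continuous cocycles of the absolute Galois group of `K` with values in
`E_D[3^∞]` that are coboundaries in `E_D` at all the places of `K`. -/
def Cocycles (D : K) : AddSubgroup (Coch (curve D)) where
  carrier := {f | IsShaCoc (curve D) f ∧ ∀ σ, ∃ n : ℕ, 3 ^ n • f σ = 0}
  zero_mem' := (Pool.Agent.Y703.XL.Inf.selCoc D).zero_mem'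
  add_mem' := (Pool.Agent.Y703.XL.Inf.selCoc D).add_mem'
  neg_mem' := (Pool.Agent.Y703.XL.Inf.selCoc D).neg_mem'

/-- The group of the coboundaries of the points of `E_D[3^∞]`. -/
def Coboundaries (D : K) : AddSubgroup (Coch (curve D)) where
  carrier := {f | ∃ P : Pt (curve D) (AlgebraicClosure K), (∃ n : ℕ, 3 ^ n • P = 0) ∧
    ∀ σ : Gal K, f σ = act (curve D) σ.toAlgHom P - P}
  zero_mem' := (Pool.Agent.Y703.XL.Inf.cobInf D).zero_mem'
  add_mem' := (Pool.Agent.Y703.XL.Inf.cobInf D).add_mem'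
  neg_mem' := (Pool.Agent.Y703.XL.Inf.cobInf D).neg_mem'

/-- The `3^∞`-Selmer group of `E_D` over `K`: the kernel of
`H¹(K, E_D[3^∞]) → ∏ H¹(K_v, E_D)`. -/
def Sel (D : K) : Type := Cocycles D ⧸ (Coboundaries D).addSubgroupOf (Cocycles D)

/-- The group law of the `3^∞`-Selmer group. -/
noncomputable instance Sel.group (D : K) : AddCommGroup (Sel D) :=
  @QuotientAddGroup.Quotient.addCommGroup (Cocycles D) _
    ((Coboundaries D).addSubgroupOf (Cocycles D))

/-- The class of a cocycle. -/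
noncomputable def cls {D : K} (f : Cocycles D) : Sel D := QuotientAddGroup.mk f

/-- The kernel of the endomorphism `√-3 = 1 + 2 ω` on the `3^∞`-Selmer group: the classes of the
cocycles `f` for which `σ ↦ f σ + 2 ω (f σ)` is a coboundary. -/
def killed (ω D : K) : Set (Sel D) :=
  {x | ∃ f : Cocycles D, cls f = x ∧
    (fun σ => f.1 σ + (2 : ℕ) • rotation D ω (AlgebraicClosure K) (f.1 σ) : Coch (curve D)) ∈
      Coboundaries D}

/-- The rank of `E_D(K)` over `ℤ`. -/
noncomputable def rank (D : K) : ℕ := Module.finrank ℤ (curve D).toAffine.Point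

/-- `D` is cube-free and `1` modulo `3`, and its norm is not `1` modulo `9`. -/
def InClass (D : 𝓞 K) : Prop :=
  (3 : 𝓞 K) ∣ D - 1 ∧ (∀ p : 𝓞 K, Prime p → ¬ p ^ 3 ∣ D) ∧ ¬ (9 : ℤ) ∣ Algebra.norm ℤ D - 1

/-- The `D` of the class of norm at most `X`. -/
def upTo (K : Type) [Field K] [NumberField K] (X : ℕ) : Set (𝓞 K) :=
  {D : 𝓞 K | Algebra.norm ℤ D ≤ X ∧ InClass D}

/-- `∏_{i ≥ 0} (1 - 3^{-(2 i + 1)}) / ((3 - 1) (9 - 1) ⋯ (3 ^ r - 1))`. -/
noncomputable def prob (r : ℕ) : ℝ :=
  (∏' i : ℕ, (1 - (1 / 3 : ℝ) ^ (2 * i + 1))) / ∏ i ∈ Finset.range r, ((3 : ℝ) ^ (i + 1) - 1)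

/-- The dimension of `killed ω D` over the field with three elements: the logarithm to the base three
of its order. -/
noncomputable def dim (ω : K) (D : 𝓞 K) : ℕ := Nat.log 3 (killed ω (D : K)).ncard

/-- The mean of `f ^ m` over the `D` of the class of norm at most `X`. -/
noncomputable def mean (K : Type) [Field K] [NumberField K] (m : ℕ) (f : 𝓞 K → ℕ) (X : ℕ) : ℝ :=
  (∑ᶠ D ∈ upTo K X, (f D : ℝ) ^ m) / ((upTo K X).ncard : ℝ)

/-- `∑ r ^ m prob r`. -/
noncomputable def moment (m : ℕ) : ℝ := ∑' r : ℕ, (r : ℝ) ^ m * prob r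

/-- The elements of `P` are primes, `1` modulo `3`, with norms `1` modulo `9`. -/
def GoodPrimes (P : Finset (𝓞 K)) : Prop :=
  ∀ l ∈ P, Prime l ∧ (3 : 𝓞 K) ∣ l - 1 ∧ (9 : ℤ) ∣ Algebra.norm ℤ l - 1

/-- `F = K(∛l : l ∈ P)`. -/
def Generated (F : Type) [Field F] [Algebra K F] (P : Finset (𝓞 K)) : Prop :=
  ∃ r : 𝓞 K → F, (∀ l ∈ P, r l ^ 3 = algebraMap K F l) ∧
    ∀ L : Subfield F, (∀ a : K, algebraMap K F a ∈ L) → (∀ l ∈ P, r l ∈ L) → L = ⊤

/-- The `D` of the class of norm at most `X` not divisible by the elements of `P`. -/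
def upToPrimeTo (P : Finset (𝓞 K)) (X : ℕ) : Set (𝓞 K) :=
  {D : 𝓞 K | Algebra.norm ℤ D ≤ X ∧ InClass D ∧ ∀ l ∈ P, ¬ l ∣ D}

/-- The mean of the `m`-th power of the rank of `E_D(F)` over the `D` of the class of norm at most
`X` not divisible by the elements of `P`. -/
noncomputable def meanRank (F : Type) [Field F] [NumberField F] [Algebra K F] (P : Finset (𝓞 K))
    (m X : ℕ) : ℝ :=
  (∑ᶠ D ∈ upToPrimeTo P X, (rank (algebraMap K F (D : K)) : ℝ) ^ m) /
    ((upToPrimeTo P X).ncard : ℝ)

/-- **The average rank of the cubic twists.** -/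
theorem result (K : Type) [Field K] [NumberField K] [IsCyclotomicExtension {3} ℚ K] (ω : K)
    (hω : ω ^ 2 + ω + 1 = 0) :
    (∃ c : ℝ, 0 < c ∧ ∃ X₀ : ℕ, ∀ X : ℕ, X₀ ≤ X → c * X ≤ ((upTo K X).ncard : ℝ)) ∧
    (∀ X : ℕ, (upTo K X).Finite) ∧
    (∀ D : 𝓞 K, InClass D → Module.Finite ℤ (curve (D : K)).toAffine.Point ∧
      (killed ω (D : K)).ncard = 3 ^ dim ω D ∧ rank (D : K) ≤ 2 * dim ω D) ∧
    (∀ m : ℕ, Summable (fun r : ℕ => (r : ℝ) ^ m * prob r) ∧
      Filter.Tendsto (mean K m (dim ω)) Filter.atTop (nhds (moment m)) ∧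
      ∀ ε : ℝ, 0 < ε → ∀ᶠ X : ℕ in Filter.atTop,
        mean K m (fun D => rank (D : K)) X ≤ 2 ^ m * moment m + ε) ∧
    0.4039 < moment 1 ∧ moment 1 < 0.405 ∧
    (∀ᶠ X : ℕ in Filter.atTop, mean K 1 (fun D => rank (D : K)) X < 0.81) ∧
    ∀ P : Finset (𝓞 K), GoodPrimes P →
      (∃ c : ℝ, 0 < c ∧ ∃ X₀ : ℕ, ∀ X : ℕ, X₀ ≤ X → c * X ≤ ((upToPrimeTo P X).ncard : ℝ)) ∧
      ∀ (F : Type) [Field F] [NumberField F] [Algebra K F], Generated F P →
        Module.finrank K F = 3 ^ P.card ∧
        (∀ D : 𝓞 K, InClass D → (∀ l ∈ P, ¬ l ∣ D) →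
          Module.Finite ℤ (curve (algebraMap K F (D : K))).toAffine.Point) ∧
        (∀ (m : ℕ) (ε : ℝ), 0 < ε → ∀ᶠ X : ℕ in Filter.atTop,
          meanRank F P m X ≤ (2 ^ m * moment m + ε) * (Module.finrank K F : ℝ) ^ m) ∧
        ∀ᶠ X : ℕ in Filter.atTop, meanRank F P 1 X < 0.81 * Module.finrank K F := by
  obtain ⟨S, hS, hone, hlim⟩ := Pool.Agent.X253.CF.momCF K ω hω
  obtain ⟨hc, -⟩ := Pool.Agent.X253.CF.finalCF K ω hω
  have hup : ∀ X : ℕ, upTo K X = ((S X : Finset (𝓞 K)) : Set (𝓞 K)) := hS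
  have hmean : ∀ (m : ℕ) (f : 𝓞 K → ℕ) (X : ℕ),
      mean K m f X = (∑ D ∈ S X, (f D : ℝ) ^ m) / ((S X).card : ℝ) := by
    intro m f X
    unfold mean
    rw [hup X, finsum_mem_coe_finset, Set.ncard_coe_finset]
  have hlim' : ∀ m : ℕ, Filter.Tendsto (mean K m (dim ω)) Filter.atTop (nhds (moment m)) := by
    intro m
    refine (hlim m).congr fun X => ?_
    rw [hmean]
    rfl
  have hle : ∀ m X : ℕ, mean K m (fun D => rank (D : K)) X ≤ 2 ^ m * mean K m (dim ω) X := by
    intro m X
    rw [hmean, hmean, ← mul_div_assoc, Finset.mul_sum]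
    refine div_le_div_of_nonneg_right (Finset.sum_le_sum fun D hD => ?_) (Nat.cast_nonneg _)
    have hD' : InClass D := by
      have : D ∈ upTo K X := by
        rw [hup X]
        exact hD
      exact this.2
    have h' : rank (D : K) ≤ 2 * dim ω D := (hone D hD').2
    have h'' : (rank (D : K) : ℝ) ≤ 2 * dim ω D := by exact_mod_cast h'
    rw [← mul_pow]
    exact pow_le_pow_left₀ (Nat.cast_nonneg _) h'' m
  have hmu : moment 1 = Pool.Agent.X253.CF.mu := by
    have h : moment 1 = Pool.Agent.X253.CF.mum 1 := rfl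
    rw [h, Pool.Agent.X253.CF.mum_one]
  have hmu1 : 0.4039 < moment 1 := by
    rw [hmu]
    exact Pool.Agent.X253.CF.mu_gt
  have hmu2 : moment 1 < 0.405 := by
    rw [hmu]
    exact Pool.Agent.X253.CF.mu_lt
  have hev : ∀ (m : ℕ) (ε : ℝ), 0 < ε → ∀ᶠ X : ℕ in Filter.atTop,
      mean K m (fun D => rank (D : K)) X ≤ 2 ^ m * moment m + ε := by
    intro m ε hε
    have h2 : (0 : ℝ) < 2 ^ m := by positivity
    filter_upwards [(hlim' m).eventually (gt_mem_nhds (show moment m < moment m + ε / 2 ^ m from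
      lt_add_of_pos_right _ (by positivity)))] with X hX
    refine (hle m X).trans ?_
    have h3 := mul_le_mul_of_nonneg_left (le_of_lt hX) h2.le
    rw [mul_add, mul_div_cancel₀ _ h2.ne'] at h3
    exact h3
  refine ⟨hc, fun X => ?_, fun D hD => ⟨Pool.Agent.X253.CF.fg_CF K hD, hone D hD⟩,
    fun m => ⟨Pool.Agent.X253.CF.summable_mum m, hlim' m, hev m⟩, hmu1, hmu2, ?_,
    fun P hP => ⟨Pool.Agent.X253.CF.countTow P hP, ?_⟩⟩
  · rw [hup X]
    exact (S X).finite_toSet
  · filter_upwards [hev 1 ((0.81 - 2 * moment 1) / 2) (by linarith)] with X hX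
    rw [pow_one] at hX
    linarith
  · intro F _ _ _ hF
    obtain ⟨x, hx, hgen⟩ := hF
    obtain ⟨g1, S', hS', hf, hlimF⟩ := Pool.Agent.X253.CF.towMom P hP F x hx hgen
    have hup' : ∀ X : ℕ, upToPrimeTo P X = ((S' X : Finset (𝓞 K)) : Set (𝓞 K)) := hS'
    have hN : (Module.finrank K F : ℝ) = 3 ^ P.card := by
      rw [g1]
      push_cast
      rfl
    have h3 : (0 : ℝ) < 3 ^ P.card := by positivity
    have hevF : ∀ (m : ℕ) (ε : ℝ), 0 < ε → ∀ᶠ X : ℕ in Filter.atTop,
        meanRank F P m X ≤ (2 ^ m * moment m + ε) * (Module.finrank K F : ℝ) ^ m := by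
      intro m ε hε
      filter_upwards [hlimF m ε hε] with X hX
      unfold meanRank
      rw [hup' X, finsum_mem_coe_finset, Set.ncard_coe_finset, hN]
      exact hX
    refine ⟨g1, hf, hevF, ?_⟩
    filter_upwards [hevF 1 ((0.81 - 2 * moment 1) / 2) (by linarith)] with X hX
    refine lt_of_le_of_lt hX ?_
    rw [hN, pow_one, pow_one]
    have : 2 * moment 1 + (0.81 - 2 * moment 1) / 2 < 0.81 := by linarith
    exact mul_lt_mul_of_pos_right this h3

end Pool.Agent.Results.MP_81dc49_nt.CubicTwistsAverageRank
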