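import Pool.Agent.X257.AE.Multi

/-!
# Ranks over all multiquadratic fields, at the prefixes of almost every real number

For a real number `α` and a base `b ≥ 2` let `t_n = ⌊α b ^ n⌋` be the prefixes of the expansion of `α` in
base `b`. We show: for almost every real `α`, for ALL elliptic curves `E` over `ℚ` with full rational
2-torsion, ALL polynomials `D ≠ 0` with integer coefficients, ALL multiquadratic number fields
`F = ℚ(√d_1, …, √d_r)` and all bases `b`, the average over `n` of `2 ^ (k rank)`, for every `k`, and so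
all the moments of the rank, of the groups of the `F`-rational points of the quadratic twists of `E` by
`D(t_n)`, `n = 1, 2, ...` (logarithmic means), are bounded by constants which depend only on `E`, `D`,
`d_1, …, d_r` and `k`, and the ranks are at most `ε log n` for all large `n`.
-/

set_option autoImplicit false

namespace Pool.Agent.Results.MP_81dc49_nt.MultiquadraticPrefixes

open Finset Polynomial Filter MeasureTheory

/-- an elliptic curve `E : y² = x³ + A x + B = (x - e₀) (x - e₁) (x - e₂)`, a polynomial `D`, and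
integers `d_1, …, d_r` -/
structure Family where
  /-- coefficient -/
  A : ℤ
  /-- coefficient -/
  B : ℤ
  /-- the roots -/
  e : Fin 3 → ℤ
  /-- the twisting polynomial -/
  D : ℤ[X]
  /-- the number of the integers `d_i` -/
  r : ℕ
  /-- the integers `d_i` -/
  d : Fin r → ℤ

/-- the data are such that `x³ + A x + B = (x - e₀) (x - e₁) (x - e₂)`, the curve is nonsingular, `D ≠ 0`,
and `d_i ≠ 0` for all `i` -/
structure Family.Ok (P : Family) : Prop where
  disc : 4 * P.A ^ 3 + 27 * P.B ^ 2 ≠ 0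
  roots : ∀ x : ℤ, x ^ 3 + P.A * x + P.B = (x - P.e 0) * (x - P.e 1) * (x - P.e 2)
  D_ne : P.D ≠ 0
  d_ne : ∀ i, P.d i ≠ 0

/-- the field `F` is `ℚ(√d_1, …, √d_r)` -/
def Family.IsField (P : Family) (F : Type) [Field F] [Algebra ℚ F] : Prop :=
  ∃ x : Fin P.r → F, (∀ i, x i ^ 2 = (P.d i : F)) ∧
    IntermediateField.adjoin ℚ (Set.range x) = ⊤

/-- the quadratic twist of `E` by `D(t)`, over the field `F`: with `d = D(t)`, the curve
`y² = x³ + d² A x + d³ B` -/
noncomputable def Family.tw (P : Family) (F : Type) [Field F] (t : ℤ) : WeierstrassCurve F :=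
  ⟨0, 0, 0, (((P.D.eval t) ^ 2 * P.A : ℤ) : F), (((P.D.eval t) ^ 3 * P.B : ℤ) : F)⟩

open Classical in
/-- the rank of the group of the `F`-rational points of the quadratic twist of `E` by `D(t)`, if
`D(t) ≠ 0`; zero if `D(t) = 0` -/
noncomputable def Family.rank (P : Family) (F : Type) [Field F] (t : ℤ) : ℕ :=
  if P.D.eval t = 0 then 0 else Module.finrank ℤ (P.tw F t).toAffine.Point

/-- the logarithmic means of `f(1), f(2), ...` have an upper limit at most `c` -/
def LogMeanLe (f : ℕ → ℝ) (c : ℝ) : Prop := ∀ ε : ℝ, 0 < ε → ∀ᶠ x : ℕ in atTop,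
  ∑ n ∈ Icc 1 x, f n / (n : ℝ) ≤ (c + ε) * Real.log x

/-- the means of `f(0), f(1), ...` have an upper limit at most `c` -/
def MeanLe (f : ℕ → ℝ) (c : ℝ) : Prop := ∀ ε : ℝ, 0 < ε → ∀ᶠ x : ℕ in atTop,
  ∑ j ∈ range x, f j ≤ (c + ε) * x

/-! ### Proof -/

instance : Countable Family := by
  have h : Function.Injective (fun P : Family => (⟨P.r, P.A, P.B, P.e, P.D, P.d⟩ :
      Σ r : ℕ, ℤ × ℤ × (Fin 3 → ℤ) × ℤ[X] × (Fin r → ℤ))) := by
    rintro ⟨A, B, e, D, r, d⟩ ⟨A', B', e', D', r', d'⟩ h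
    simp only [Sigma.mk.injEq] at h
    obtain ⟨rfl, h⟩ := h
    simp only [heq_eq_eq, Prod.mk.injEq] at h
    obtain ⟨rfl, rfl, rfl, rfl, rfl⟩ := h
    rfl
  exact h.countable

/-- the bound for the rank -/
noncomputable def gg (P : Family) (t : ℤ) : ℝ := 1 + Pool.Agent.X257.AE.G P.d P.A P.B P.D t

theorem gg_nonneg (P : Family) (t : ℤ) : 0 ≤ gg P t := by
  unfold gg
  have := Pool.Agent.X257.AE.G_nonneg P.d P.A P.B P.D t
  linarith

theorem pow_le {P : Family} (hP : P.Ok) (F : Type) [Field F] [CharZero F] [Algebra ℚ F]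
    (hF : P.IsField F) (t : ℤ) : (2 : ℝ) ^ P.rank F t ≤ gg P t := by
  classical
  obtain ⟨x, hx, hgen⟩ := hF
  unfold Family.rank gg
  by_cases ht : P.D.eval t = 0
  · rw [if_pos ht, pow_zero]
    have := Pool.Agent.X257.AE.G_nonneg P.d P.A P.B P.D t
    linarith
  · rw [if_neg ht]
    have h1 := Pool.Agent.X257.AE.rank_le_rs F x P.d hx hP.d_ne hgen hP.disc hP.roots P.D t ht
    unfold Pool.Agent.X257.AE.G
    rw [if_neg ht]
    have h2 : (2 : ℝ) ^ Module.finrank ℤ (P.tw F t).toAffine.Point ≤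
        2 ^ Pool.Agent.X257.AE.rs P.d P.A P.B P.D t := by
      exact pow_le_pow_right₀ (by norm_num) h1
    linarith

theorem exC (P : Family) (k : ℕ) : ∃ C : ℝ, P.Ok → 1 ≤ k →
    Pool.Agent.X257.AE.Avg (fun t => gg P t ^ k) C 1 := by
  by_cases hP : P.Ok ∧ 1 ≤ k
  swap
  · exact ⟨0, fun h1 h2 => absurd ⟨h1, h2⟩ hP⟩
  obtain ⟨C, hC⟩ := Pool.Agent.X257.AE.avg_multi hP.1.disc hP.1.roots P.D hP.1.D_ne P.d hP.1.d_ne k
    hP.2
  refine ⟨2 ^ k * (1 + C), fun _ _ N M hM hN => ?_⟩
  have h1 := hC N M hM hN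
  have h2 : ∀ t ∈ Ioc N (N + M), gg P t ^ k ≤
      2 ^ k * (1 + Pool.Agent.X257.AE.G P.d P.A P.B P.D t ^ k) := by
    intro t _
    unfold gg
    set y := Pool.Agent.X257.AE.G P.d P.A P.B P.D t with hy
    have hy0 : 0 ≤ y := Pool.Agent.X257.AE.G_nonneg P.d P.A P.B P.D t
    rcases le_total y 1 with h | h
    · calc (1 + y) ^ k ≤ 2 ^ k := pow_le_pow_left₀ (by positivity) (by linarith) k
        _ ≤ 2 ^ k * (1 + y ^ k) := le_mul_of_one_le_right (by positivity)
            (by linarith [pow_nonneg hy0 k])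
    · calc (1 + y) ^ k ≤ (2 * y) ^ k := pow_le_pow_left₀ (by positivity) (by linarith) k
        _ = 2 ^ k * y ^ k := mul_pow _ _ _
        _ ≤ 2 ^ k * (1 + y ^ k) := mul_le_mul_of_nonneg_left (by linarith) (by positivity)
  refine (sum_le_sum h2).trans ?_
  rw [← mul_sum, sum_add_distrib, sum_const, Int.card_Ioc, nsmul_eq_mul, mul_one]
  have h3 : ((N + M - N).toNat : ℝ) = M := by
    rw [add_sub_cancel_left, Int.toNat_natCast]
  rw [h3, mul_assoc]
  refine mul_le_mul_of_nonneg_left ?_ (by positivity)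
  linarith

/-- **Theorem.** There are constants `C(P, k)` such that: (1) for almost every real `α`, for all elliptic
curves `E : y² = x³ + A x + B = (x - e₀) (x - e₁) (x - e₂)` with integers `e_i`, all polynomials `D ≠ 0`
with integer coefficients, all nonzero integers `d_1, …, d_r`, the field `F = ℚ(√d_1, …, √d_r)` and all
bases `b ≥ 2`: for all `k ≥ 1` the logarithmic means of `2 ^ (k rank)` for the groups of the `F`-rational
points of the quadratic twists of `E` by `D(⌊α b ^ n⌋)`, `n = 1, 2, ...`, have an upper limit at most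
`C(P, k)`, `P = (E, D, d_1, …, d_r)`, and for all `ε > 0` the ranks are at most `ε log n` for all large
`n`; (2) for all sequences `s` with `s_0 ≥ 1`, `s_(j + 1) ≥ 2 s_j`, for almost every real `α`, for all
these `P`, `F`, `b` and `k` the means of `2 ^ (k rank)` for the twists by `D(⌊α b ^ s_j⌋)`,
`j = 0, 1, ...`, have an upper limit at most `C(P, k)`. -/
theorem result : ∃ C : Family → ℕ → ℝ,
    (∀ᵐ α : ℝ, ∀ P : Family, P.Ok → ∀ (F : Type) [Field F] [CharZero F] [Algebra ℚ F],
      P.IsField F → ∀ b : ℕ, 2 ≤ b →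
        (∀ k : ℕ, 1 ≤ k →
          LogMeanLe (fun n => ((2 : ℝ) ^ P.rank F ⌊α * (b : ℝ) ^ n⌋) ^ k) (C P k)) ∧
        ∀ ε : ℝ, 0 < ε → ∀ᶠ n : ℕ in atTop,
          (P.rank F ⌊α * (b : ℝ) ^ n⌋ : ℝ) ≤ ε * Real.log n) ∧
    ∀ s : ℕ → ℕ, 1 ≤ s 0 → (∀ j, 2 * s j ≤ s (j + 1)) →
      ∀ᵐ α : ℝ, ∀ P : Family, P.Ok → ∀ (F : Type) [Field F] [CharZero F] [Algebra ℚ F],
        P.IsField F → ∀ b : ℕ, 2 ≤ b → ∀ k : ℕ, 1 ≤ k →
          MeanLe (fun j => ((2 : ℝ) ^ P.rank F ⌊α * (b : ℝ) ^ s j⌋) ^ k) (C P k) := by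
  choose C hC using exC
  refine ⟨C, ?_, fun s hs0 hs => ?_⟩
  · rw [ae_all_iff]
    intro P
    by_cases hP : P.Ok
    swap
    · exact Eventually.of_forall fun α h => absurd h hP
    simp only [hP, forall_true_left]
    filter_upwards [Pool.Agent.X257.AE.ae_moments (gg_nonneg P) (C P) (M0 := 1)
      (fun k hk => hC P k hP hk)] with α hα F _ _ _ hF b hb
    obtain ⟨h1, h2⟩ := hα b hb
    refine ⟨fun k hk ε hε => ?_, fun ε hε => ?_⟩
    · filter_upwards [h1 k hk ε hε] with x hx
      refine le_trans (sum_le_sum fun n _ => ?_) hx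
      exact div_le_div_of_nonneg_right (pow_le_pow_left₀ (by positivity) (pow_le hP F hF _) k)
        (Nat.cast_nonneg n)
    · have hl2 : 0 < Real.log 2 := Real.log_pos (by norm_num)
      filter_upwards [h2 (ε * Real.log 2) (by positivity), eventually_ge_atTop 1] with n hn hn1
      have hn0 : (0 : ℝ) < n := by exact_mod_cast hn1
      have h3 := (pow_le hP F hF ⌊α * (b : ℝ) ^ n⌋).trans hn
      have h4 := Real.log_le_log (by positivity) h3
      rw [Real.log_pow, Real.log_rpow hn0] at h4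
      have h5 : (P.rank F ⌊α * (b : ℝ) ^ n⌋ : ℝ) * Real.log 2 ≤ (ε * Real.log n) * Real.log 2 := by
        linarith
      exact le_of_mul_le_mul_right h5 hl2
  · rw [ae_all_iff]
    intro P
    by_cases hP : P.Ok
    swap
    · exact Eventually.of_forall fun α h => absurd h hP
    simp only [hP, forall_true_left]
    filter_upwards [Pool.Agent.X257.AE.ae_moments_seq (gg_nonneg P) (C P) (M0 := 1)
      (fun k hk => hC P k hP hk) s hs0 hs] with α hα F _ _ _ hF b hb k hk ε hε
    filter_upwards [hα b hb k hk ε hε] with x hx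
    refine le_trans (sum_le_sum fun n _ => ?_) hx
    exact pow_le_pow_left₀ (by positivity) (pow_le hP F hF _) k

end Pool.Agent.Results.MP_81dc49_nt.MultiquadraticPrefixes
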