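import Pool.Agent.X261.TD.Sqf

/-!
Averages of the Mordell-Weil groups modulo two over the quadratic twists `D(t) y ^ 2 = f(x) - t` of an
elliptic curve over `k(t)`, for a finite field `k`.
-/

set_option autoImplicit false
set_option maxHeartbeats 1000000

open Polynomial
open scoped Classical

namespace Pool.Agent.Results.MP_81dc49_nt.TwoDescentAverages

section defs

variable {k : Type} [Field k]

/-- The characteristic of `k` is not two or three, `f` is a monic cubic polynomial and it is not of the
form `(x - a) ^ 3 + b`. -/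
structure IsCubicBase (f : k[X]) : Prop where
  two_ne : (2 : k) ≠ 0
  three_ne : (3 : k) ≠ 0
  monic : f.Monic
  degree : f.natDegree = 3
  generic : f.coeff 2 ^ 2 ≠ 3 * f.coeff 1

/-- The elliptic curve `D(t) y ^ 2 = f(x) - t` over `K = k(t)`, with the Weierstrass equation
`Y ^ 2 = X ^ 3 + f₂ D X ^ 2 + f₁ D ^ 2 X + (f₀ - t) D ^ 3`, where `X = D x`, `Y = D ^ 2 y`. -/
noncomputable def twist (K : Type) [Field K] [Algebra k[X] K] (f D : k[X]) :
    WeierstrassCurve K :=
  ⟨0, algebraMap k[X] K (C (f.coeff 2)) * algebraMap k[X] K D, 0,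
    algebraMap k[X] K (C (f.coeff 1)) * algebraMap k[X] K D ^ 2,
    algebraMap k[X] K (C (f.coeff 0) - X) * algebraMap k[X] K D ^ 3⟩

/-- The rational points over `K = k(t)` of `D(t) y ^ 2 = f(x) - t`. -/
abbrev Points (K : Type) [Field K] [Algebra k[X] K] (f D : k[X]) : Type :=
  WeierstrassCurve.Affine.Point (twist K f D)

/-- The order of `A / 2 A` (zero, if it is infinite). -/
noncomputable def orderModTwo (A : Type) [AddCommGroup A] : ℕ :=
  (zsmulAddGroupHom (2 : ℤ) : A →+ A).range.index

/-- The primes over `P`: the monic irreducible polynomials in `k[x]` which divide `P(f(x))`. -/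
def PrimesOver (f P : k[X]) : Set k[X] := {R | R.Monic ∧ Irreducible R ∧ R ∣ P.comp f}

/-- The monic irreducible divisors of `D`. -/
def PrimeDivisors (D : k[X]) : Set k[X] := {P | P.Monic ∧ Irreducible P ∧ P ∣ D}

/-- The sum over the prime divisors `P` of `D` of the number of the primes over `P` less one. -/
noncomputable def splitting (f D : k[X]) : ℕ :=
  ∑ᶠ P ∈ PrimeDivisors D, ((PrimesOver f P).ncard - 1)

/-- Two-descent for `E_D`: no element of order two, the order of `E_D(K)` modulo two is finite and at most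
two to the power `splitting f D`; the latter also bounds the rank, if the group is finitely
generated. -/
structure IsBounded (K : Type) [Field K] [Algebra k[X] K] [IsFractionRing k[X] K]
    (f D : k[X]) : Prop where
  no_two : ∀ R : Points K f D, R + R = 0 → R = 0
  finite : orderModTwo (Points K f D) ≠ 0
  bound : orderModTwo (Points K f D) ≤ 2 ^ splitting f D
  rank : Module.Finite ℤ (Points K f D) → Module.finrank ℤ (Points K f D) ≤ splitting f D

/-- The monic irreducible polynomials of degree `N`. -/
def PrimesOfDegree (k : Type) [Field k] (N : ℕ) : Set k[X] :=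
  {P | P.Monic ∧ Irreducible P ∧ P.natDegree = N}

/-- The monic squarefree polynomials of degree `n`. -/
def SquarefreesOfDegree (k : Type) [Field k] (n : ℕ) : Set k[X] :=
  {D | D.Monic ∧ Squarefree D ∧ D.natDegree = n}

/-- The bounds for the twists by the primes `P` of degree `N`, where every prime is multiplied with a
constant `u(P)`. Here `A_P` is the group of the rational points of the twist by `u(P) P`, there are
`π` primes of degree `N`, and `k` has `q` elements. -/
structure PrimeAverages (K : Type) [Field K] [Algebra k[X] K] [IsFractionRing k[X] K]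
    (f : k[X]) (u : k[X] → k) (N : ℕ) : Prop where
  /-- the average of the order of `A_P / 2 A_P` is at most two -/
  average : ∑ᶠ P ∈ PrimesOfDegree k N, orderModTwo (Points K f (C (u P) * P)) ≤
    2 * (PrimesOfDegree k N).ncard
  /-- the order of `A_P / 2 A_P` is at most four -/
  all_le : ∀ P ∈ PrimesOfDegree k N, orderModTwo (Points K f (C (u P) * P)) ≤ 4
  /-- at least a third of the groups `A_P / 2 A_P` are zero, up to `2 q ^ (N / 2) / N` -/
  trivial_ge : Nat.card k ^ N ≤ 3 * (N * {P ∈ PrimesOfDegree k N |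
    orderModTwo (Points K f (C (u P) * P)) = 1}.ncard) + 6 * Nat.card k ^ (N / 2)
  /-- at most one sixth of the groups `A_P / 2 A_P` have more than two elements, up to
  `q ^ (N / 2) / N` -/
  large_le : 6 * (N * {P ∈ PrimesOfDegree k N |
    2 < orderModTwo (Points K f (C (u P) * P))}.ncard) ≤ Nat.card k ^ N + 6 * Nat.card k ^ (N / 2)
  /-- the average of the rank is at most `5 / 6`, up to `q ^ (N / 2) / (N π)` -/
  rank : (∀ P ∈ PrimesOfDegree k N, Module.Finite ℤ (Points K f (C (u P) * P))) →
    6 * (N * ∑ᶠ P ∈ PrimesOfDegree k N, Module.finrank ℤ (Points K f (C (u P) * P))) ≤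
      5 * (N * (PrimesOfDegree k N).ncard) + 6 * Nat.card k ^ (N / 2)
  card_le : N * (PrimesOfDegree k N).ncard ≤ Nat.card k ^ N

end defs

open Pool.Agent.X261.TW Pool.Agent.X261.TD Pool.Agent.TH943.HJ

section aux

variable {k : Type} [Field k]

theorem over_card {f P : k[X]} (hd : f.natDegree = 3) (hP : P ≠ 0) :
    (PrimesOver f P).ncard = (primes (P.comp f)).card := by
  rw [← Set.ncard_coe_finset]
  congr 1
  ext R
  rw [Finset.mem_coe, mem_primes (comp_ne hd hP)]
  rfl

theorem splitting_eq {f D : k[X]} (hd : f.natDegree = 3) (hD : D ≠ 0) :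
    splitting f D = ∑ P ∈ primes D, ((primes (P.comp f)).card - 1) := by
  have h : PrimeDivisors D = (primes D : Set k[X]) := by
    ext P
    rw [Finset.mem_coe, mem_primes hD]
    rfl
  unfold splitting
  rw [h, finsum_mem_coe_finset]
  refine Finset.sum_congr rfl fun P hP => ?_
  rw [over_card hd ((mem_primes hD P).1 hP).2.1.ne_zero]

theorem bounded {K : Type} [Field K] [Algebra k[X] K] [IsFractionRing k[X] K] {f D : k[X]}
    (hf : IsCubicBase f) (hD : D ≠ 0) : IsBounded K f D := by
  have h1 := index_bound (K := K) hf.monic hf.degree hf.two_ne hD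
  have h2 := splitting_eq hf.degree hD
  refine ⟨fun R hR => no_two hf.monic hf.degree hf.two_ne hD R hR, h1.1, ?_, fun hfin => ?_⟩
  · rw [h2]
    exact h1.2
  · have h3 := (two_pow_rank_le h1.1 hfin).trans h1.2
    rw [h2]
    exact (Nat.pow_le_pow_iff_right (by norm_num)).1 h3

variable [Finite k]

theorem card_primes_le {N : ℕ} (hN : 0 < N) : N * (irr k N).ncard ≤ Nat.card k ^ N := by
  have hfin := irr_finite (k := k) N
  have hne : (X ^ Nat.card k ^ N - X : k[X]) ≠ 0 :=
    FiniteField.X_pow_card_pow_sub_X_ne_zero _ hN.ne' Finite.one_lt_card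
  have h1 : (∏ P ∈ hfin.toFinset, P) ∣ (X ^ Nat.card k ^ N - X : k[X]) := by
    apply Finset.prod_dvd_of_coprime
    · intro R hR S hS hn
      rw [Finset.mem_coe, Set.Finite.mem_toFinset] at hR hS
      exact coprime_of_ne ⟨hR.1, hR.2.1⟩ ⟨hS.1, hS.2.1⟩ hn
    · intro R hR
      rw [Set.Finite.mem_toFinset] at hR
      exact (hR.2.1.natDegree_dvd_iff_dvd_X_pow_card_pow_sub_X (n := N)).1 hR.2.2.dvd
  have h2 := natDegree_le_of_dvd h1 hne
  rw [natDegree_prod_of_monic _ _ (fun R hR => ((Set.Finite.mem_toFinset hfin).1 hR).1),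
    FiniteField.X_pow_card_pow_sub_X_natDegree_eq _ hN.ne' Finite.one_lt_card] at h2
  rw [Finset.sum_congr rfl (fun P hP => ((Set.Finite.mem_toFinset hfin).1 hP).2.2),
    Finset.sum_const, smul_eq_mul] at h2
  rw [Set.ncard_eq_toFinset_card _ hfin, mul_comm]
  exact h2

theorem three_le_card (h2 : (2 : k) ≠ 0) : 3 ≤ Nat.card k := by
  have h1 : 1 < Nat.card k := Finite.one_lt_card
  have h3 : ((Nat.card k : ℕ) : ZMod 2) = 1 := Pool.Agent.W343.BSD.card_odd h2
  rcases Nat.lt_or_ge (Nat.card k) 3 with h | h
  · exfalso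
    have h4 : Nat.card k = 2 := by omega
    rw [h4] at h3
    exact absurd h3 (by decide)
  · exact h

omit [Finite k] in
theorem geom_bound {q : ℕ} (hq : 3 ≤ q) (m : ℕ) :
    2 * ∑ i ∈ Finset.Icc 1 m, q ^ i ≤ 3 * q ^ m := by
  induction m with
  | zero => simp
  | succ m ih =>
    rw [Finset.sum_Icc_succ_top (by omega), mul_add, pow_succ]
    have h1 : 3 * q ^ m ≤ q ^ m * q := by
      rw [mul_comm]
      exact Nat.mul_le_mul_left _ hq
    nlinarith

omit [Finite k] in
theorem divisor_bound {q : ℕ} (hq : 3 ≤ q) (N : ℕ) :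
    3 * ∑ d ∈ N.properDivisors, q ^ d + 1 ≤ 6 * q ^ (N / 2) := by
  have h1 : ∑ d ∈ N.properDivisors, q ^ d ≤ ∑ i ∈ Finset.Icc 1 (N / 2), q ^ i := by
    refine Finset.sum_le_sum_of_subset fun d hd => ?_
    rw [Nat.mem_properDivisors] at hd
    rw [Finset.mem_Icc]
    obtain ⟨⟨c, hc⟩, hlt⟩ := hd
    have hd0 : 0 < d := by
      rcases Nat.eq_zero_or_pos d with h | h
      · rw [h, zero_mul] at hc
        omega
      · exact h
    have hc2 : 2 ≤ c := by
      rcases Nat.lt_or_ge c 2 with h | h
      · exfalso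
        have : c ≤ 1 := by omega
        have h3 : d * c ≤ d * 1 := Nat.mul_le_mul_left _ this
        omega
      · exact h
    refine ⟨hd0, ?_⟩
    rw [Nat.le_div_iff_mul_le (by norm_num), hc]
    exact Nat.mul_le_mul_left _ hc2
  have h2 := geom_bound hq (N / 2)
  have h3 : 1 ≤ q ^ (N / 2) := Nat.one_le_pow _ _ (by omega)
  omega

/-- the number of the inert primes -/
theorem inert_bounds {f : k[X]} (hf : IsCubicBase f) {N : ℕ} (hN : 0 < N) :
    Nat.card k ^ N ≤ 3 * (N * {P ∈ irr k N | Irreducible (P.comp f)}.ncard) +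
      6 * Nat.card k ^ (N / 2) ∧
    3 * (N * {P ∈ irr k N | Irreducible (P.comp f)}.ncard) ≤ Nat.card k ^ N +
      6 * Nat.card k ^ (N / 2) := by
  have h1 := Pool.Agent.TH943.PT.inert_count hf.two_ne hf.three_ne hf.monic hf.degree hf.generic hN
  have h0 : {P : {P : k[X] // P.Monic ∧ Irreducible P} | P.1.natDegree = N ∧
      Irreducible (P.1.comp f)}.ncard = {P ∈ irr k N | Irreducible (P.comp f)}.ncard := by
    rw [← Set.ncard_image_of_injective _ Subtype.val_injective]
    congr 1
    ext P
    constructor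
    · rintro ⟨Q, hQ, rfl⟩
      exact ⟨⟨Q.2.1, Q.2.2, hQ.1⟩, hQ.2⟩
    · rintro ⟨hP, hPf⟩
      exact ⟨⟨P, hP.1, hP.2.1⟩, ⟨hP.2.2, hPf⟩, rfl⟩
  rw [h0] at h1
  have h2 := abs_le.1 h1
  have h3 := divisor_bound (three_le_card hf.two_ne) N
  have h4 : (3 * ∑ d ∈ N.properDivisors, (Nat.card k : ℤ) ^ d + 1 : ℤ) ≤
      6 * (Nat.card k : ℤ) ^ (N / 2) := by
    exact_mod_cast h3
  constructor
  · have h5 : ((Nat.card k ^ N : ℕ) : ℤ) ≤
        ((3 * (N * {P ∈ irr k N | Irreducible (P.comp f)}.ncard) +
          6 * Nat.card k ^ (N / 2) : ℕ) : ℤ) := by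
      push_cast
      push_cast at h2
      linarith [h2.1]
    exact_mod_cast h5
  · have h5 : ((3 * (N * {P ∈ irr k N | Irreducible (P.comp f)}.ncard) : ℕ) : ℤ) ≤
        ((Nat.card k ^ N + 6 * Nat.card k ^ (N / 2) : ℕ) : ℤ) := by
      push_cast
      push_cast at h2
      linarith [h2.2]
    exact_mod_cast h5

theorem index_one {K : Type} [Field K] [Algebra k[X] K] [IsFractionRing k[X] K] {f P : k[X]}
    (hf : IsCubicBase f) (hPm : P.Monic) (hP : Irreducible P) (hPf : Irreducible (P.comp f))
    {u : k} (hu : u ≠ 0) : orderModTwo (Points K f (C u * P)) = 1 := by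
  have h1 := index_prime (K := K) hf.monic hf.degree hf.two_ne hPm hP hu
  rw [card_one_of hf.monic hf.degree hPm hPf, pow_zero] at h1
  exact le_antisymm h1.2 (Nat.one_le_iff_ne_zero.2 h1.1)

theorem averages {K : Type} [Field K] [Algebra k[X] K] [IsFractionRing k[X] K] {f : k[X]}
    (hf : IsCubicBase f) {u : k[X] → k} (hu : ∀ P, u P ≠ 0) {N : ℕ} (hN : 0 < N) :
    PrimeAverages K f u N := by
  have hin := inert_bounds hf hN
  have hfin := irr_finite (k := k) N
  have hcard := card_primes_le (k := k) hN
  refine ⟨?_, ?_, ?_, ?_, ?_, hcard⟩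
  · have h1 := sum_index (K := K) hf.monic hf.degree hf.two_ne hu N
    change ∑ᶠ P ∈ irr k N, _ ≤ _
    rw [finsum_mem_eq_finite_toFinset_sum _ hfin]
    exact h1
  · intro P hP
    exact index_le_four (K := K) hf.monic hf.degree hf.two_ne hP.1 hP.2.1 (hu P)
  · have h1 : {P ∈ irr k N | Irreducible (P.comp f)}.ncard ≤ {P ∈ PrimesOfDegree k N |
        orderModTwo (Points K f (C (u P) * P)) = 1}.ncard := by
      refine Set.ncard_le_ncard ?_ (hfin.subset fun P hP => hP.1)
      rintro P ⟨hP, hPf⟩
      exact ⟨hP, index_one hf hP.1 hP.2.1 hPf (hu P)⟩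
    have h2 := Nat.mul_le_mul_left N h1
    omega
  · have h1 := count_index (K := K) hf.monic hf.degree hf.two_ne hu N
    change 6 * (N * {P ∈ irr k N | 2 < indexTwo (Pts (curve K f (C (u P) * P)))}.ncard) ≤ _
    have h2 := Nat.mul_le_mul_left N h1
    generalize {P ∈ irr k N | 2 < indexTwo (Pts (curve K f (C (u P) * P)))}.ncard = a at *
    have h3 : N * (2 * a) = 2 * (N * a) := by ring
    omega
  · intro hfg
    have h1 := sum_split (f := f) hf.monic hf.degree N
    change 6 * (N * ∑ᶠ P ∈ irr k N, _) ≤ 5 * (N * (irr k N).ncard) + _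
    rw [finsum_mem_eq_finite_toFinset_sum _ hfin]
    have h2 : ∑ P ∈ hfin.toFinset, Module.finrank ℤ (Points K f (C (u P) * P)) ≤
        ∑ P ∈ hfin.toFinset, ((primes (P.comp f)).card - 1) := by
      refine Finset.sum_le_sum fun P hP => ?_
      rw [Set.Finite.mem_toFinset] at hP
      have h3 := index_prime (K := K) hf.monic hf.degree hf.two_ne hP.1 hP.2.1 (hu P)
      have h4 := (two_pow_rank_le h3.1 (hfg P hP)).trans h3.2
      exact (Nat.pow_le_pow_iff_right (by norm_num)).1 h4
    set S := ∑ P ∈ hfin.toFinset, Module.finrank ℤ (Points K f (C (u P) * P)) with hS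
    set T := ∑ P ∈ hfin.toFinset, ((primes (P.comp f)).card - 1) with hT
    have h5 : 2 * S + {P ∈ irr k N | Irreducible (P.comp f)}.ncard ≤ 2 * (irr k N).ncard := by
      omega
    generalize {P ∈ irr k N | Irreducible (P.comp f)}.ncard = a at *
    have h6 := Nat.mul_le_mul_left (3 * N) h5
    have h7 : 3 * N * (2 * S + a) = 6 * (N * S) + 3 * (N * a) := by ring
    have h8 : 3 * N * (2 * (irr k N).ncard) = 6 * (N * (irr k N).ncard) := by ring
    omega

end aux

/-- **Averages in the families of quadratic twists `E_D : D(t) y ^ 2 = f(x) - t` over `k(t)`.**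

Let `k` be a finite field with `q` elements, of characteristic different from two and three, and `f` a
monic cubic polynomial over `k` which is not of the form `(x - a) ^ 3 + b`.

1. For every `D ≠ 0` the group `E_D(K)` has no element of order two, and `E_D(K) / 2 E_D(K)` has at most
two to the power `∑ (s(P) - 1)` elements, where the sum is over the prime divisors `P` of `D` and `s(P)` is
the number of the prime divisors of `P(f(x))`. Hence the rank of `E_D(K)` is at most `∑ (s(P) - 1)`.

2. For every `N ≥ 1`, in the family of the twists by the primes `P` of degree `N`, or by `u(P) P` with any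
constants `u(P) ≠ 0`: the average of the order of `E(K) / 2 E(K)` is at most two; this order is never
larger than four, it is larger than two for at most one sixth of the primes and it is one for at least
one third of them, up to an error of size `q ^ (N / 2) / N`; and the average of the rank is at
most `5 / 6 + o(1)`.

3. For every `n`, the sum of the orders of `E_D(K) / 2 E_D(K)` over all the monic squarefree `D` of degree
`n` (again with any constants) is at most `(n + 1) q ^ n`. There are `q ^ n - q ^ (n - 1)` such `D`,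
for `n ≥ 2`.

The groups `E_D(K)` are finitely generated (Mordell-Weil), which is stated as a hypothesis where the rank
occurs. -/
theorem result (k K : Type) [Field k] [Finite k] [Field K] [Algebra k[X] K]
    [IsFractionRing k[X] K] (f : k[X]) (hf : IsCubicBase f) :
    (∀ D : k[X], D ≠ 0 → IsBounded K f D) ∧
    ∀ u : k[X] → k, (∀ D, u D ≠ 0) →
      (∀ N : ℕ, 0 < N → PrimeAverages K f u N) ∧
      ∀ n : ℕ, ∑ᶠ D ∈ SquarefreesOfDegree k n, orderModTwo (Points K f (C (u D) * D)) ≤
        (n + 1) * Nat.card k ^ n := by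
  refine ⟨fun D hD => bounded hf hD, fun u hu => ⟨fun N hN => averages hf hu hN, fun n => ?_⟩⟩
  have h1 := sum_sqf (K := K) hf.monic hf.degree hf.two_ne hu n
  change ∑ᶠ D ∈ sqf k n, _ ≤ _
  rw [finsum_mem_eq_finite_toFinset_sum _ (sqf_finite n)]
  exact h1

end Pool.Agent.Results.MP_81dc49_nt.TwoDescentAverages
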